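import Pool.Agent.H146R3.LoopMain

/-!
The local loop lemma for odd cycles under absorption.
-/

namespace Pool.Agent.Results.MP_511665_al.OddCycleLoop

universe u

variable {A : Type u}

/-- `(a 1, ..., a l)` is an odd cycle of `R`: `l ≥ 3` is odd, the entries are distinct,
consecutive entries are related, and so are `a l` and `a 1`. -/
structure IsOddCycle (R : Set (A × A)) (l : ℕ) (a : ℕ → A) : Prop where
  three_le : 3 ≤ l
  odd : Odd l
  distinct : ∀ i j, 1 ≤ i → i ≤ l → 1 ≤ j → j ≤ l → a i = a j → i = j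
  edge : ∀ i, 1 ≤ i → i < l → (a i, a (i + 1)) ∈ R
  last : (a l, a 1) ∈ R

/-- The neighbourhood `a^{+R}`. -/
def nbhd (R : Set (A × A)) (a : A) : Set A := {b | (a, b) ∈ R}

/-- The operation `f` is idempotent. -/
def IsIdempotentOp {n : ℕ} (f : (Fin n → A) → A) : Prop := ∀ x, f (fun _ => x) = x

/-- The operation `f` is compatible with `R`. -/
def IsCompatible {n : ℕ} (R : Set (A × A)) (f : (Fin n → A) → A) : Prop :=
  ∀ x y : Fin n → A, (∀ i, (x i, y i) ∈ R) → (f x, f y) ∈ R

/-- `B` absorbs `C` with respect to `f`. -/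
def Absorbs {n : ℕ} (f : (Fin n → A) → A) (B C : Set A) : Prop :=
  ∀ (j : Fin n) (b : Fin n → A), (∀ i, i ≠ j → b i ∈ B) → b j ∈ C → f b ∈ B

/-- Let `R` be a symmetric relation on a set `A` with an odd cycle `(a 1, ..., a l)`, and let `f` be
an operation of finite arity `n ≥ 1` on `A` which is idempotent, compatible with `R`, and such that
the neighbourhood of `a 1` absorbs `{a 1}` with respect to `f`.  Then `R` contains a loop. -/
theorem result (R : Set (A × A)) (hsymm : ∀ x y, (x, y) ∈ R → (y, x) ∈ R)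
    (l : ℕ) (a : ℕ → A) (hcycle : IsOddCycle R l a) (n : ℕ) (hn : 1 ≤ n)
    (f : (Fin n → A) → A) (hidem : IsIdempotentOp f) (hcompat : IsCompatible R f)
    (habs : Absorbs f (nbhd R (a 1)) {a 1}) : ∃ x, (x, x) ∈ R := by
  obtain ⟨m, hm⟩ := hcycle.odd
  have hpath : ∀ i < 2 * m, (fun x y => (x, y) ∈ R) (a (i + 1)) (a (i + 1 + 1)) := by
    intro i hi
    exact hcycle.edge (i + 1) (by omega) (by omega)
  have h1 := Pool.Agent.H146R3.Loop.P_of_path (R := fun x y => (x, y) ∈ R)
    (v := fun i => a (i + 1)) (k := 2 * m) hpath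
  have h2 : Pool.Agent.H146R3.Loop.P (fun x y => (x, y) ∈ R) (2 * m + 1) (a 1) (a 1) := by
    refine Pool.Agent.H146R3.Loop.P_add h1 (Pool.Agent.H146R3.Loop.P_one ?_)
    rw [← hm]
    exact hcycle.last
  exact Pool.Agent.H146R3.Loop.loop_of_odd_walk (fun x y => (x, y) ∈ R) hsymm hn f hidem hcompat
    (a 1) (fun j b hb hbj => habs j b hb (by rw [hbj]; rfl)) m h2

end Pool.Agent.Results.MP_511665_al.OddCycleLoop
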